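import Pool.Agent.W541.DL.Stm

/-!
# DL-NBAD
-/

set_option autoImplicit false

open MeasureTheory

namespace Pool.Agent.W74.DL.NBAD

open Pool.Agent.W541.DL

open Classical in
theorem markov {Ω : Type} [MeasurableSpace Ω] (P : Measure Ω) [IsProbabilityMeasure P] {ι : Type}
    (s : Finset ι) (bad : ι → Set Ω) (η κ : ℝ) (hη : 0 < η) (hκ : 0 < κ)
    (h : ∀ z ∈ s, P.real (bad z) ≤ η) :
    P.real {ω | κ * (s.card : ℝ) < ((s.filter fun z => ω ∈ bad z).card : ℝ)} ≤ η / κ := by
  rcases Finset.eq_empty_or_nonempty s with rfl | hs
  · have h1 : {ω : Ω | κ * ((∅ : Finset ι).card : ℝ) <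
        (((∅ : Finset ι).filter fun z => ω ∈ bad z).card : ℝ)} = ∅ := by
      ext ω
      simp
    rw [h1, measureReal_empty]
    positivity
  · have hc : (0 : ℝ) < s.card := by exact_mod_cast hs.card_pos
    set N : Ω → ENNReal := fun ω => ∑ z ∈ s, (toMeasurable P (bad z)).indicator 1 ω with hN
    have hNm : Measurable N := by
      refine Finset.measurable_sum _ fun z _ => ?_
      exact (measurable_const.indicator (measurableSet_toMeasurable _ _))
    have hNi : ∫⁻ ω, N ω ∂P ≤ ENNReal.ofReal (s.card * η) := by
      rw [hN, lintegral_finsetSum]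
      · calc ∑ z ∈ s, ∫⁻ ω, (toMeasurable P (bad z)).indicator 1 ω ∂P
            ≤ ∑ z ∈ s, ENNReal.ofReal η := by
              refine Finset.sum_le_sum fun z hz => ?_
              rw [lintegral_indicator_one (measurableSet_toMeasurable _ _), measure_toMeasurable]
              have h1 := h z hz
              rw [← ENNReal.ofReal_toReal (measure_ne_top P (bad z))]
              exact ENNReal.ofReal_le_ofReal h1
          _ = ENNReal.ofReal (s.card * η) := by
              rw [Finset.sum_const, nsmul_eq_mul, ENNReal.ofReal_mul (Nat.cast_nonneg _),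
                ENNReal.ofReal_natCast]
      · intro z _
        exact (measurable_const.indicator (measurableSet_toMeasurable _ _))
    have hsub : {ω | κ * (s.card : ℝ) < ((s.filter fun z => ω ∈ bad z).card : ℝ)} ⊆
        {ω | ENNReal.ofReal (κ * s.card) ≤ N ω} := by
      intro ω hω
      have h1 : κ * (s.card : ℝ) < ((s.filter fun z => ω ∈ bad z).card : ℝ) := hω
      have h2 : (((s.filter fun z => ω ∈ bad z).card : ℕ) : ENNReal) ≤ N ω := by
        rw [Finset.card_filter]
        push_cast
        refine Finset.sum_le_sum fun z _ => ?_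
        split_ifs with hz
        · rw [Set.indicator_of_mem (subset_toMeasurable P _ hz)]
          rfl
        · exact zero_le
      refine le_trans ?_ h2
      rw [← ENNReal.ofReal_natCast]
      exact ENNReal.ofReal_le_ofReal h1.le
    have hpos : 0 < κ * (s.card : ℝ) := by positivity
    have h1 : P {ω | κ * (s.card : ℝ) < ((s.filter fun z => ω ∈ bad z).card : ℝ)} ≤
        ENNReal.ofReal (η / κ) := by
      refine (measure_mono hsub).trans ?_
      refine (meas_ge_le_lintegral_div hNm.aemeasurable
        (by rw [ne_eq, ENNReal.ofReal_eq_zero]; linarith) ENNReal.ofReal_ne_top).trans ?_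
      refine (ENNReal.div_le_div_right hNi _).trans ?_
      rw [← ENNReal.ofReal_div_of_pos hpos]
      apply ENNReal.ofReal_le_ofReal
      apply le_of_eq
      field_simp
    exact ENNReal.toReal_le_of_le_ofReal (by positivity) h1

theorem main : S_NBAD := by
  classical
  intro Ω _ P f A H c a b x0 t0 ρ η κ m hP hη hκ h
  have h1 := markov P (Finset.range (nJ ρ m) ×ˢ Finset.range (nI ρ m))
    (fun z => {ω | ¬ GoodCell (f ω) A H c a b x0 t0 m z.2 z.1}) η κ hη hκ (by
      intro z hz
      rw [Finset.mem_product, Finset.mem_range, Finset.mem_range] at hz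
      exact h z.1 hz.1 z.2 hz.2)
  rw [Finset.card_product, Finset.card_range, Finset.card_range] at h1
  refine le_trans (le_of_eq ?_) h1
  congr 1
  ext ω
  simp only [Set.mem_ofPred_eq]
  unfold nBad
  rw [Finset.filter_congr_decidable]

end Pool.Agent.W74.DL.NBAD
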